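import Pool.Agent.W680.WH.Stm

/-!
# WHH, part KN1: existence of a nonzero operator intertwining with the rotation
-/

set_option autoImplicit false

open scoped ComplexConjugate InnerProductSpace
open ContinuousLinearMap Filter

namespace Pool.Agent.W392.WH.KN1

open Pool.Agent.W680.WH

theorem pow_comm' (A : E →L[ℂ] E) (c : ℂ) (h : A * Z = c • (Z * A)) (j : ℕ) :
    A ^ j * Z = c ^ j • (Z * A ^ j) := by
  induction j with
  | zero => simp
  | succ j ih =>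
    calc A ^ (j + 1) * Z = A ^ j * (A * Z) := by rw [pow_succ, mul_assoc]
      _ = c • ((A ^ j * Z) * A) := by rw [h, mul_smul_comm, ← mul_assoc]
      _ = c ^ (j + 1) • (Z * A ^ (j + 1)) := by
        rw [ih, smul_mul_assoc, smul_smul, mul_assoc, ← pow_succ, pow_succ' c]

theorem inv_bound (P V : E →L[ℂ] E) (m : ℝ) (hm : 0 < m)
    (hP : ∀ f, m * ‖f‖ ^ 2 ≤ (⟪f, P f⟫_ℂ).re) (hV : adjoint V * P * V = P) (f : E) :
    ‖V f‖ ^ 2 ≤ ‖P‖ / m * ‖f‖ ^ 2 := by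
  have h1 := hP (V f)
  have h2 : ⟪V f, P (V f)⟫_ℂ = ⟪f, P f⟫_ℂ := by
    rw [← adjoint_inner_right V]
    have h3 : (adjoint V * P * V) f = P f := by rw [hV]
    have h4 : (adjoint V * P * V) f = adjoint V (P (V f)) := rfl
    rw [h4] at h3
    rw [h3]
  rw [h2] at h1
  have h5 : (⟪f, P f⟫_ℂ).re ≤ ‖P‖ * ‖f‖ ^ 2 := by
    calc (⟪f, P f⟫_ℂ).re ≤ ‖⟪f, P f⟫_ℂ‖ := Complex.re_le_norm _
      _ ≤ ‖f‖ * ‖P f‖ := norm_inner_le_norm _ _
      _ ≤ ‖f‖ * (‖P‖ * ‖f‖) := mul_le_mul_of_nonneg_left (P.le_opNorm f) (norm_nonneg _)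
      _ = ‖P‖ * ‖f‖ ^ 2 := by ring
  rw [div_mul_eq_mul_div, le_div_iff₀ hm]
  linarith

theorem inv_pow' (P V : E →L[ℂ] E) (hV : adjoint V * P * V = P) (j : ℕ) :
    adjoint (V ^ j) * P * V ^ j = P := by
  induction j with
  | zero =>
    rw [pow_zero, mul_one, ← star_eq_adjoint, star_one, one_mul]
  | succ j ih =>
    rw [← star_eq_adjoint] at ih hV ⊢
    rw [pow_succ, star_mul]
    calc star V * star (V ^ j) * P * (V ^ j * V) = star V * (star (V ^ j) * P * V ^ j) * V := by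
          simp only [mul_assoc]
      _ = P := by rw [ih, hV]

theorem norm_of_sq (V : E →L[ℂ] E) (B : ℝ) (h : ∀ f, ‖V f‖ ^ 2 ≤ B * ‖f‖ ^ 2) :
    ‖V‖ ≤ Real.sqrt B := by
  apply opNorm_le_bound _ (Real.sqrt_nonneg _)
  intro f
  rw [← Real.sqrt_sq (norm_nonneg (V f)), ← Real.sqrt_sq (norm_nonneg f), ← Real.sqrt_mul']
  · exact Real.sqrt_le_sqrt (h f)
  · positivity

theorem zi_comm (hOPA : S_OPA) (A : E →L[ℂ] E) (h : A * Z = Z * A) : A * Zi = Zi * A := by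
  obtain ⟨⟨h1, h2, _, _⟩, _⟩ := hOPA
  calc A * Zi = (Zi * Z) * A * Zi := by rw [h2, one_mul]
    _ = Zi * (Z * A) * Zi := by simp only [mul_assoc]
    _ = Zi * (A * Z) * Zi := by rw [h]
    _ = Zi * A * (Z * Zi) := by simp only [mul_assoc]
    _ = Zi * A := by rw [h1, mul_one]

theorem conv_all (hOPA : S_OPA) (hOPC : S_OPC) (A : ℕ → E →L[ℂ] E) (C : ℝ)
    (hA : ∀ N, ‖A N‖ ≤ C) (hZ : ∀ N, A N * Z = Z * A N) (F : E)
    (h0 : Tendsto (fun N => A N (eb 0)) atTop (nhds F)) (x : E) :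
    ∃ y, Tendsto (fun N => A N x) atTop (nhds y) := by
  have hC : 0 ≤ C := le_trans (norm_nonneg _) (hA 0)
  have hZb := hOPA.2.2.1.1
  have hZib := hOPA.2.2.1.2.1
  have hstep : ∀ v y, Tendsto (fun N => A N v) atTop (nhds y) →
      Tendsto (fun N => A N (Z v)) atTop (nhds (Z y)) := by
    intro v y hv
    have h1 : (fun N => A N (Z v)) = fun N => Z (A N v) := by
      funext N
      have h2 : (A N * Z) v = (Z * A N) v := by rw [hZ N]
      exact h2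
    rw [h1]
    exact (Z.continuous.tendsto y).comp hv
  have hstepi : ∀ v y, Tendsto (fun N => A N v) atTop (nhds y) →
      Tendsto (fun N => A N (Zi v)) atTop (nhds (Zi y)) := by
    intro v y hv
    have h1 : (fun N => A N (Zi v)) = fun N => Zi (A N v) := by
      funext N
      have h2 : (A N * Zi) v = (Zi * A N) v := by rw [zi_comm hOPA _ (hZ N)]
      exact h2
    rw [h1]
    exact (Zi.continuous.tendsto y).comp hv
  have heb : ∀ n : ℤ, ∃ y, Tendsto (fun N => A N (eb n)) atTop (nhds y) := by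
    intro n
    induction n using Int.induction_on with
    | zero => exact ⟨F, h0⟩
    | succ i ih =>
      obtain ⟨y, hy⟩ := ih
      refine ⟨Z y, ?_⟩
      have h1 := hstep _ _ hy
      rwa [hZb] at h1
    | pred i ih =>
      obtain ⟨y, hy⟩ := ih
      refine ⟨Zi y, ?_⟩
      have h1 := hstepi _ _ hy
      rwa [hZib] at h1
  have hspan : ∀ v ∈ (Submodule.span ℂ (Set.range eb) : Submodule ℂ E),
      ∃ y, Tendsto (fun N => A N v) atTop (nhds y) := by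
    intro v hv
    induction hv using Submodule.span_induction with
    | mem v hv =>
      obtain ⟨n, rfl⟩ := hv
      exact heb n
    | zero => exact ⟨0, by simp⟩
    | add v w _ _ h1 h2 =>
      obtain ⟨y, hy⟩ := h1
      obtain ⟨z, hz⟩ := h2
      refine ⟨y + z, ?_⟩
      simp only [map_add]
      exact hy.add hz
    | smul c v _ h1 =>
      obtain ⟨y, hy⟩ := h1
      refine ⟨c • y, ?_⟩
      simp only [map_smul]
      exact hy.const_smul c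
  have hdense := hOPC.2.2.2.2.2.2.2.2.2.2.2.2.2.2.1
  apply cauchySeq_tendsto_of_complete
  rw [Metric.cauchySeq_iff]
  intro ε hε
  have hε' : 0 < ε / (4 * (C + 1)) := by positivity
  obtain ⟨v, hv, hxv⟩ := Metric.mem_closure_iff.mp (hdense x) _ hε'
  obtain ⟨y, hy⟩ := hspan v hv
  have hcau := hy.cauchySeq
  rw [Metric.cauchySeq_iff] at hcau
  obtain ⟨N0, hN0⟩ := hcau (ε / 4) (by positivity)
  refine ⟨N0, fun a ha b hb => ?_⟩
  have h1 := hN0 a ha b hb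
  have h2 : ∀ N, dist (A N x) (A N v) ≤ ε / 4 := by
    intro N
    rw [dist_eq_norm, ← map_sub]
    have h3 : ‖x - v‖ ≤ ε / (4 * (C + 1)) := by
      rw [← dist_eq_norm]; exact hxv.le
    calc ‖A N (x - v)‖ ≤ ‖A N‖ * ‖x - v‖ := (A N).le_opNorm _
      _ ≤ (C + 1) * (ε / (4 * (C + 1))) := by
          apply mul_le_mul (by linarith [hA N]) h3 (norm_nonneg _) (by linarith)
      _ = ε / 4 := by field_simp
  calc dist (A a x) (A b x) ≤ dist (A a x) (A a v) + dist (A a v) (A b v) +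
        dist (A b v) (A b x) := dist_triangle4 _ _ _ _
    _ ≤ ε / 4 + dist (A a v) (A b v) + ε / 4 := by
        rw [dist_comm (A b v) (A b x)]
        linarith [h2 a, h2 b]
    _ < ε := by linarith

/-- rotation as a unit -/
noncomputable def Ru (hOPR : S_OPR) (k : Circle) : (E →L[ℂ] E)ˣ where
  val := R k
  inv := R k⁻¹
  val_inv := by rw [hOPR.2.2.2.1, mul_inv_cancel, hOPR.2.2.2.2.1]
  inv_val := by rw [hOPR.2.2.2.1, inv_mul_cancel, hOPR.2.2.2.2.1]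

theorem R_norm (hOPR : S_OPR) (k : Circle) (f : E) : ‖R k f‖ = ‖f‖ := by
  have h1 : ⟪R k f, R k f⟫_ℂ = ⟪f, f⟫_ℂ := by
    rw [← adjoint_inner_right (R k), hOPR.2.2.2.2.2.1]
    have h2 : (R k⁻¹ * R k) f = f := by
      rw [hOPR.2.2.2.1, inv_mul_cancel, hOPR.2.2.2.2.1]; rfl
    have h3 : (R k⁻¹ * R k) f = R k⁻¹ (R k f) := rfl
    rw [h3] at h2
    rw [h2]
  have h4 : ‖R k f‖ ^ 2 = ‖f‖ ^ 2 := by
    rw [inner_self_eq_norm_sq_to_K, inner_self_eq_norm_sq_to_K] at h1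
    exact_mod_cast h1
  exact (sq_eq_sq₀ (norm_nonneg _) (norm_nonneg _)).mp h4

theorem Rpow_norm (hOPR : S_OPR) (k : Circle) (j : ℕ) (f : E) : ‖((R k) ^ j) f‖ = ‖f‖ := by
  induction j with
  | zero => simp
  | succ j ih =>
    rw [pow_succ']
    have h1 : (R k * R k ^ j) f = R k ((R k ^ j) f) := rfl
    rw [h1, R_norm hOPR, ih]

theorem Rpow_eb (hOPR : S_OPR) (k : Circle) (j : ℕ) : ((R k) ^ j) (eb 0) = eb 0 := by
  induction j with
  | zero => simp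
  | succ j ih =>
    rw [pow_succ']
    have h1 : (R k * R k ^ j) (eb 0) = R k ((R k ^ j) (eb 0)) := rfl
    rw [h1, ih, hOPR.1 k 0]
    simp

/-- lower bound on a window -/
theorem window (hOM : S_OM) (hOPC : S_OPC) (B : ℝ) (hB : 0 < B) : ∃ K : ℕ, ∀ f : E,
    ‖f‖ ^ 2 ≤ B → 1 ≤ B * ∑' n, ‖co f n‖ ^ 2 →
    1 / (2 * B) ≤ ∑ n ∈ Finset.Icc (-(K : ℤ)) K, ‖co f n‖ ^ 2 := by
  obtain ⟨K, hK⟩ := (hOM.2.2.2.1.eventually_ge_atTop (2 * B ^ 2)).exists
  refine ⟨K, fun f hf h1 => ?_⟩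
  have hsum := hOPC.2.2.2.2.2.2.2.1 f
  have hnorm := hOPC.2.2.2.2.2.2.1 f
  have hom1 : ∀ n, 1 ≤ om n := hOM.1
  have homK : 0 < om K := om_pos _
  set s := Finset.Icc (-(K : ℤ)) K with hs
  have hpt : ∀ n, ‖co f n‖ ^ 2 ≤ (if n ∈ s then ‖co f n‖ ^ 2 else 0) +
      (1 / om K) * (om n * ‖co f n‖ ^ 2) := by
    intro n
    by_cases hn : n ∈ s
    · rw [if_pos hn]
      have : 0 ≤ (1 / om K) * (om n * ‖co f n‖ ^ 2) := by
        have := om_pos n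
        positivity
      linarith
    · rw [if_neg hn, zero_add]
      have h2 : om K ≤ om n := by
        apply hOM.2.1
        rw [hs, Finset.mem_Icc] at hn
        omega
      rw [one_div, ← mul_assoc, inv_mul_eq_div]
      have h3 : 1 ≤ om n / om K := by rw [le_div_iff₀ homK]; linarith
      have h4 : 0 ≤ ‖co f n‖ ^ 2 := by positivity
      nlinarith
  have hs1 : Summable fun n => ‖co f n‖ ^ 2 := by
    refine Summable.of_nonneg_of_le (fun n => by positivity) (fun n => ?_) hsum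
    have h4 : 0 ≤ ‖co f n‖ ^ 2 := by positivity
    nlinarith [hom1 n]
  have hs2 : Summable fun n => (if n ∈ s then ‖co f n‖ ^ 2 else 0) :=
    summable_of_ne_finset_zero (s := s) (fun n hn => if_neg hn)
  have hs3 : Summable fun n => (1 / om K) * (om n * ‖co f n‖ ^ 2) := hsum.mul_left _
  have h5 := hs1.tsum_le_tsum hpt (hs2.add hs3)
  rw [hs2.tsum_add hs3, tsum_mul_left, ← hnorm, tsum_eq_sum (s := s) (fun n hn => if_neg hn)] at h5
  have h6 : ∑ n ∈ s, (if n ∈ s then ‖co f n‖ ^ 2 else 0) = ∑ n ∈ s, ‖co f n‖ ^ 2 :=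
    Finset.sum_congr rfl (fun n hn => if_pos hn)
  rw [h6] at h5
  have h7 : (1 / om K) * ‖f‖ ^ 2 ≤ 1 / (2 * B) := by
    rw [one_div_mul_eq_div, div_le_div_iff₀ homK (by positivity)]
    have h8 : ‖f‖ ^ 2 * (2 * B) ≤ B * (2 * B) := mul_le_mul_of_nonneg_right hf (by positivity)
    nlinarith
  have h9 : 1 / B ≤ ∑' n, ‖co f n‖ ^ 2 := by
    rw [div_le_iff₀ hB]; linarith
  have h10 : 1 / B = 1 / (2 * B) + 1 / (2 * B) := by
    field_simp; ring
  linarith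

theorem eb0_norm (hOM : S_OM) (hOPC : S_OPC) : ‖eb 0‖ ^ 2 = 1 := by
  have h1 := hOPC.2.2.2.2.2.2.2.2.2.1 0 (eb 0)
  rw [hOPC.1 0 0, if_pos rfl, mul_one, om_zero, inner_self_eq_norm_sq_to_K] at h1
  have h2 := congrArg Complex.re h1
  have h3 : ((RCLike.ofReal (K := ℂ) ‖eb 0‖) ^ 2).re = ‖eb 0‖ ^ 2 := by
    have h4 : (RCLike.ofReal (K := ℂ) ‖eb 0‖) = ((‖eb 0‖ : ℝ) : ℂ) := rfl
    rw [h4, ← Complex.ofReal_pow, Complex.ofReal_re]
  rw [← h3, h2]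
  simp

/-- the operators `W^j (R k)^j` -/
theorem M_facts (hOPR : S_OPR) (P : E →L[ℂ] E) (m : ℝ) (k : Circle) (W : (E →L[ℂ] E)ˣ)
    (hm : 0 < m) (hP : ∀ f, m * ‖f‖ ^ 2 ≤ (⟪f, P f⟫_ℂ).re)
    (hW : adjoint (W : E →L[ℂ] E) * P * (W : E →L[ℂ] E) = P)
    (hWZ : (k : ℂ) • ((W : E →L[ℂ] E) * Z) = Z * (W : E →L[ℂ] E)) (j : ℕ) :
    ∃ M : (E →L[ℂ] E)ˣ, (M : E →L[ℂ] E) = (W : E →L[ℂ] E) ^ j * R k ^ j ∧
      (M : E →L[ℂ] E) * Z = Z * (M : E →L[ℂ] E) ∧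
      ‖(M : E →L[ℂ] E)‖ ≤ Real.sqrt (‖P‖ / m) ∧
      ‖((M⁻¹ : (E →L[ℂ] E)ˣ) : E →L[ℂ] E)‖ ≤ Real.sqrt (‖P‖ / m) ∧
      (M : E →L[ℂ] E) (eb 0) = ((W : E →L[ℂ] E) ^ j) (eb 0) := by
  have hk0 : (k : ℂ) ≠ 0 := Circle.coe_ne_zero k
  have hW1 : (W : E →L[ℂ] E) * Z = ((k : ℂ))⁻¹ • (Z * (W : E →L[ℂ] E)) := by
    rw [← hWZ, smul_smul, inv_mul_cancel₀ hk0, one_smul]
  have hWj := pow_comm' _ _ hW1 j
  have hRj := pow_comm' _ _ (hOPR.2.1 k) j
  have hVi : adjoint ((W⁻¹ : (E →L[ℂ] E)ˣ) : E →L[ℂ] E) * P *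
      ((W⁻¹ : (E →L[ℂ] E)ˣ) : E →L[ℂ] E) = P := by
    have h1 : ((W : E →L[ℂ] E)) * ((W⁻¹ : (E →L[ℂ] E)ˣ) : E →L[ℂ] E) = 1 := W.mul_inv
    have h2 : adjoint ((W⁻¹ : (E →L[ℂ] E)ˣ) : E →L[ℂ] E) * adjoint (W : E →L[ℂ] E) = 1 := by
      rw [← star_eq_adjoint, ← star_eq_adjoint, ← star_mul, h1, star_one]
    calc adjoint ((W⁻¹ : (E →L[ℂ] E)ˣ) : E →L[ℂ] E) * P *
        ((W⁻¹ : (E →L[ℂ] E)ˣ) : E →L[ℂ] E)
        = adjoint ((W⁻¹ : (E →L[ℂ] E)ˣ) : E →L[ℂ] E) *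
          (adjoint (W : E →L[ℂ] E) * P * (W : E →L[ℂ] E)) *
          ((W⁻¹ : (E →L[ℂ] E)ˣ) : E →L[ℂ] E) := by rw [hW]
      _ = (adjoint ((W⁻¹ : (E →L[ℂ] E)ˣ) : E →L[ℂ] E) * adjoint (W : E →L[ℂ] E)) * P *
          ((W : E →L[ℂ] E) * ((W⁻¹ : (E →L[ℂ] E)ˣ) : E →L[ℂ] E)) := by
          simp only [mul_assoc]
      _ = P := by rw [h1, h2, one_mul, mul_one]
  refine ⟨W ^ j * (Ru hOPR k) ^ j, ?_, ?_, ?_, ?_, ?_⟩
  · rw [Units.val_mul, Units.val_pow_eq_pow_val, Units.val_pow_eq_pow_val]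
    rfl
  · rw [Units.val_mul, Units.val_pow_eq_pow_val, Units.val_pow_eq_pow_val]
    have hRu : ((Ru hOPR k : (E →L[ℂ] E)ˣ) : E →L[ℂ] E) = R k := rfl
    rw [hRu, mul_assoc, hRj, mul_smul_comm, ← mul_assoc, hWj, smul_mul_assoc, smul_smul,
      ← mul_pow, mul_inv_cancel₀ hk0, one_pow, one_smul, mul_assoc]
  · apply norm_of_sq
    intro f
    rw [Units.val_mul, Units.val_pow_eq_pow_val, Units.val_pow_eq_pow_val]
    have hRu : ((Ru hOPR k : (E →L[ℂ] E)ˣ) : E →L[ℂ] E) = R k := rfl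
    rw [hRu]
    have h1 := inv_bound P ((W : E →L[ℂ] E) ^ j) m hm hP (inv_pow' P _ hW j) ((R k ^ j) f)
    rw [Rpow_norm hOPR] at h1
    exact h1
  · apply norm_of_sq
    intro f
    have e1 : ((W ^ j * (Ru hOPR k) ^ j)⁻¹ : (E →L[ℂ] E)ˣ) =
        ((Ru hOPR k)⁻¹) ^ j * (W⁻¹) ^ j := by
      rw [mul_inv_rev, inv_pow, inv_pow]
    rw [e1, Units.val_mul, Units.val_pow_eq_pow_val, Units.val_pow_eq_pow_val]
    have hRu : (((Ru hOPR k)⁻¹ : (E →L[ℂ] E)ˣ) : E →L[ℂ] E) = R k⁻¹ := rfl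
    rw [hRu]
    have h1 := inv_bound P (((W⁻¹ : (E →L[ℂ] E)ˣ) : E →L[ℂ] E) ^ j) m hm hP
      (inv_pow' P _ hVi j) f
    have h2 : ‖(R k⁻¹ ^ j * ((W⁻¹ : (E →L[ℂ] E)ˣ) : E →L[ℂ] E) ^ j) f‖ =
        ‖(((W⁻¹ : (E →L[ℂ] E)ˣ) : E →L[ℂ] E) ^ j) f‖ :=
      Rpow_norm hOPR k⁻¹ j _
    rw [h2]
    exact h1
  · rw [Units.val_mul, Units.val_pow_eq_pow_val, Units.val_pow_eq_pow_val]
    have hRu : ((Ru hOPR k : (E →L[ℂ] E)ˣ) : E →L[ℂ] E) = R k := rfl
    rw [hRu]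
    have h2 : ((W : E →L[ℂ] E) ^ j * R k ^ j) (eb 0) =
        ((W : E →L[ℂ] E) ^ j) ((R k ^ j) (eb 0)) := rfl
    rw [h2, Rpow_eb hOPR]

theorem kn1 (hLOW : S_LOW) (hWI2 : S_WI2) (hOM : S_OM) (hOPA : S_OPA) (hOPC : S_OPC)
    (hOPR : S_OPR) : S_KN1 := by
  intro P m k W hm hPa hP hW hWZ
  have hM := M_facts hOPR P m k W hm hP hW hWZ
  choose M hM1 hM2 hM3 hM4 hM5 using hM
  set B : ℝ := ‖P‖ / m with hBdef
  have hB0 : 0 ≤ B := by positivity
  have hlow : ∀ j, 1 ≤ B * ∑' n, ‖co (((W : E →L[ℂ] E) ^ j) (eb 0)) n‖ ^ 2 := by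
    intro j
    have h1 := hLOW (M j) (hM2 j)
    rw [hM5] at h1
    refine le_trans h1 ?_
    apply mul_le_mul_of_nonneg_right
    · calc ‖(((M j)⁻¹ : (E →L[ℂ] E)ˣ) : E →L[ℂ] E)‖ ^ 2 ≤ (Real.sqrt B) ^ 2 :=
          pow_le_pow_left₀ (norm_nonneg _) (hM4 j) 2
        _ = B := Real.sq_sqrt hB0
    · exact tsum_nonneg (fun n => by positivity)
  have hB : 0 < B := by
    rcases hB0.lt_or_eq with h | h
    · exact h
    · exfalso
      have := hlow 0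
      rw [← h, zero_mul] at this
      linarith
  have hup : ∀ j, ‖((W : E →L[ℂ] E) ^ j) (eb 0)‖ ^ 2 ≤ B := by
    intro j
    have h1 := inv_bound P ((W : E →L[ℂ] E) ^ j) m hm hP (inv_pow' P _ hW j) (eb 0)
    rw [eb0_norm hOM hOPC, mul_one] at h1
    exact h1
  obtain ⟨K, hK⟩ := window hOM hOPC B hB
  have hη : ∀ (n : ℤ) (f : E), ⟪((1 / om n : ℝ) : ℂ) • eb n, f⟫_ℂ = co f n := by
    intro n f
    rw [inner_smul_left, hOPC.2.2.2.2.2.2.2.2.2.1, Complex.conj_ofReal]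
    have h1 : (om n : ℂ) ≠ 0 := by exact_mod_cast (om_pos n).ne'
    push_cast
    field_simp
  obtain ⟨l, F, hl, hF0, hWF, hlim⟩ := hWI2 P m W (eb 0) (Finset.Icc (-(K : ℤ)) K)
    (fun n => ((1 / om n : ℝ) : ℂ) • eb n) (1 / (2 * B)) hm hPa hP hW (by positivity) (by
      intro j
      simp only [hη]
      exact hK _ (hup j) (hlow j))
  have hl0 : l ≠ 0 := by
    intro h
    rw [h, norm_zero] at hl
    exact zero_ne_one hl
  -- the averages
  set AN : ℕ → E →L[ℂ] E := fun N => ((N : ℂ) + 1)⁻¹ •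
    ∑ j ∈ Finset.range (N + 1), (l⁻¹) ^ j • (M j : E →L[ℂ] E) with hAN
  have hANn : ∀ N, ‖AN N‖ ≤ Real.sqrt B := by
    intro N
    have h1 : ‖∑ j ∈ Finset.range (N + 1), (l⁻¹) ^ j • (M j : E →L[ℂ] E)‖ ≤
        ∑ j ∈ Finset.range (N + 1), Real.sqrt B := by
      refine norm_sum_le_of_le _ (fun j _ => ?_)
      rw [norm_smul, norm_pow, norm_inv, hl, inv_one, one_pow, one_mul]
      exact hM3 j
    rw [Finset.sum_const, Finset.card_range, nsmul_eq_mul] at h1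
    have h2 : ‖((N : ℂ) + 1)⁻¹‖ = ((N : ℝ) + 1)⁻¹ := by
      rw [norm_inv]
      congr 1
      have h3 : ((N : ℂ) + 1) = (((N : ℝ) + 1 : ℝ) : ℂ) := by push_cast; ring
      rw [h3, Complex.norm_real, Real.norm_of_nonneg (by positivity)]
    simp only [hAN]
    rw [norm_smul, h2]
    calc ((N : ℝ) + 1)⁻¹ * ‖∑ j ∈ Finset.range (N + 1), (l⁻¹) ^ j • (M j : E →L[ℂ] E)‖
        ≤ ((N : ℝ) + 1)⁻¹ * (((N + 1 : ℕ) : ℝ) * Real.sqrt B) :=
          mul_le_mul_of_nonneg_left h1 (by positivity)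
      _ = Real.sqrt B := by
          push_cast
          field_simp
  have hANZ : ∀ N, AN N * Z = Z * AN N := by
    intro N
    simp only [hAN]
    rw [smul_mul_assoc, mul_smul_comm, Finset.sum_mul, Finset.mul_sum]
    congr 1
    apply Finset.sum_congr rfl
    intro j _
    rw [smul_mul_assoc, mul_smul_comm, hM2]
  have hAN0 : Tendsto (fun N => AN N (eb 0)) atTop (nhds F) := by
    have h1 : (fun N => AN N (eb 0)) = fun N : ℕ => ((N : ℂ) + 1)⁻¹ •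
        ∑ j ∈ Finset.range (N + 1), (l⁻¹) ^ j • ((W : E →L[ℂ] E) ^ j) (eb 0) := by
      funext N
      simp only [hAN]
      rw [smul_apply, sum_apply]
      congr 1
      apply Finset.sum_congr rfl
      intro j _
      rw [smul_apply, hM5]
    rw [h1]
    exact hlim
  have hconv := conv_all hOPA hOPC AN (Real.sqrt B) hANn hANZ F hAN0
  choose f hf using hconv
  let A : E →L[ℂ] E := continuousLinearMapOfTendsto AN (tendsto_pi_nhds.mpr hf)
  have hAf : ∀ x, A x = f x := fun x => rfl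
  have hA0 : A (eb 0) = F := by
    rw [hAf]
    exact tendsto_nhds_unique (hf (eb 0)) hAN0
  have hAZ : A * Z = Z * A := by
    apply ContinuousLinearMap.ext
    intro x
    have h1 : (A * Z) x = f (Z x) := rfl
    have h2 : (Z * A) x = Z (f x) := rfl
    rw [h1, h2]
    have h3 : Tendsto (fun N => AN N (Z x)) atTop (nhds (Z (f x))) := by
      have h4 : (fun N => AN N (Z x)) = fun N => Z (AN N x) := by
        funext N
        have h5 : (AN N * Z) x = (Z * AN N) x := by rw [hANZ N]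
        exact h5
      rw [h4]
      exact (Z.continuous.tendsto (f x)).comp (hf x)
    exact tendsto_nhds_unique (hf (Z x)) h3
  refine ⟨A, l, hl, hAZ, ?_, ?_⟩
  · intro h
    rw [h] at hA0
    exact hF0 hA0.symm
  · have hk0 : (k : ℂ) ≠ 0 := Circle.coe_ne_zero k
    have h1 : (W : E →L[ℂ] E) * A * R k * Z = Z * ((W : E →L[ℂ] E) * A * R k) := by
      rw [mul_assoc, hOPR.2.1 k, mul_smul_comm, ← mul_assoc, mul_assoc (W : E →L[ℂ] E), hAZ,
        ← mul_assoc, ← smul_mul_assoc, ← smul_mul_assoc, hWZ]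
      simp only [mul_assoc]
    have h2 : l • A * Z = Z * (l • A) := by
      rw [smul_mul_assoc, mul_smul_comm, hAZ]
    have h3 : ((W : E →L[ℂ] E) * A * R k) (eb 0) = (l • A) (eb 0) := by
      have h4 : ((W : E →L[ℂ] E) * A * R k) (eb 0) =
          (W : E →L[ℂ] E) (A (R k (eb 0))) := rfl
      have h5 : R k (eb 0) = eb 0 := by
        rw [hOPR.1 k 0]; simp
      rw [h4, h5, hA0, hWF, smul_apply, hA0]
    have h6 := hOPC.2.2.2.2.2.2.2.2.2.2.2.2.2.2.2.2.2 _ _ h1 h2 h3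
    calc (W : E →L[ℂ] E) * A = (W : E →L[ℂ] E) * A * (R k * R k⁻¹) := by
          rw [hOPR.2.2.2.1, mul_inv_cancel, hOPR.2.2.2.2.1, mul_one]
      _ = ((W : E →L[ℂ] E) * A * R k) * R k⁻¹ := by rw [← mul_assoc]
      _ = l • (A * R k⁻¹) := by rw [h6, smul_mul_assoc]

end Pool.Agent.W392.WH.KN1
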